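import Pool.Agent.H240R3.WT.Stmts

set_option autoImplicit false

namespace Pool.Agent.H602R3.WT

open Pool.Agent.H240R3.WT

/-- the part of a vertex, all chain vertices together -/
def part {n : ℕ} : Fin 11 ⊕ Fin n → Fin 12
  | Sum.inl i => i.castSucc
  | Sum.inr _ => Fin.last 11

theorem pairV {G : MG} {i j : Fin G.n} {c : VC} (h : PairV G i j c) (hr : G.red.Adj i j)
    (hb : G.blue.Adj i j) : False := by
  cases c
  · exact h.2 hb
  · exact h.1 hr
  · exact h.1 hr

theorem taskE : TaskE := by
  refine ⟨⟨13, ⊤, ⊤⟩, ?_⟩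
  rintro n ⟨G, ⟨φ, hφ⟩, f, hf, hred, hblue⟩
  let ψ : Fin 13 → Fin 12 := fun i => part (n := n) (φ (f i))
  obtain ⟨i, j, hij, hψ⟩ := Fintype.exists_ne_map_eq_of_card_lt ψ (by simp)
  have hr : G.red.Adj (f i) (f j) := hred i j (by simpa using hij)
  have hb : G.blue.Adj (f i) (f j) := hblue i j (by simpa using hij)
  have hne : f i ≠ f j := fun h => hij (hf h)
  obtain ⟨h1, h2⟩ := hφ (f i) (f j) hne
  by_cases he : φ (f i) = φ (f j)
  · exact pairV (h1 he) hr hb
  · have h3 := h2 he
    have hψ' : part (n := n) (φ (f i)) = part (n := n) (φ (f j)) := hψ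
    revert he h3 hψ'
    generalize φ (f i) = u
    generalize φ (f j) = v
    intro he h3 hψ'
    rcases u with a | k
    · rcases v with b | l
      · apply he
        have : a.castSucc = b.castSucc := hψ'
        rw [Fin.castSucc_injective _ this]
      · have : a.castSucc = Fin.last 11 := hψ'
        exact absurd this (Fin.castSucc_ne_last a)
    · rcases v with b | l
      · have : Fin.last 11 = b.castSucc := hψ'
        exact absurd this.symm (Fin.castSucc_ne_last b)
      · have h4 : PairE G (f i) (f j) (chainEC k.val l.val) := h3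
        unfold chainEC at h4
        split_ifs at h4
        · exact h4.1 hr
        · exact h4.2 hb

end Pool.Agent.H602R3.WT
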